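import Mathlib

set_option autoImplicit false

namespace Pool.Agent.H598Z.Join

open Finset

/-- Non-dependent `cons`. -/
def cns {A : Type} {n : ℕ} (a : A) (w : Fin n → A) : Fin (n + 1) → A := Fin.cons a w

/-- Non-dependent `snoc`. -/
def snc {A : Type} {n : ℕ} (w : Fin n → A) (a : A) : Fin (n + 1) → A := Fin.snoc w a

@[simp] lemma cns_zero {A : Type} {n : ℕ} (a : A) (w : Fin n → A) : cns a w 0 = a := rfl
@[simp] lemma cns_succ {A : Type} {n : ℕ} (a : A) (w : Fin n → A) (i : Fin n) :
    cns a w i.succ = w i := by simp [cns]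
@[simp] lemma tail_cns {A : Type} {n : ℕ} (a : A) (w : Fin n → A) : Fin.tail (cns a w) = w := by
  simp [cns]

lemma cns_snc {A : Type} {n : ℕ} (a : A) (w : Fin n → A) (b : A) :
    cns a (snc w b) = snc (cns a w) b := Fin.cons_snoc_eq_snoc_cons a w b

lemma sum_cns {A : Type} [Fintype A] {n : ℕ} (F : (Fin (n + 1) → A) → ℝ) :
    ∑ w, F w = ∑ u : Fin n → A, ∑ b, F (cns b u) := by
  rw [← (Fin.consEquiv (fun _ : Fin (n + 1) => A)).sum_comp F, Fintype.sum_prod_type,
    Finset.sum_comm]
  rfl

lemma sum_snc {A : Type} [Fintype A] {n : ℕ} (F : (Fin (n + 1) → A) → ℝ) :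
    ∑ w, F w = ∑ u : Fin n → A, ∑ b, F (snc u b) := by
  rw [← (Fin.snocEquiv (fun _ : Fin (n + 1) => A)).sum_comp F, Fintype.sum_prod_type,
    Finset.sum_comm]
  rfl

/-- Finite dimensional distributions of a stationary process. -/
structure Stat (A : Type) [Fintype A] where
  P : (n : ℕ) → (Fin n → A) → ℝ
  nonneg : ∀ n w, 0 ≤ P n w
  total : ∀ n, ∑ w, P n w = 1
  cons : ∀ n w, ∑ b, P (n + 1) (cns b w) = P n w
  snoc : ∀ n w, ∑ b, P (n + 1) (snc w b) = P n w

variable {A : Type} [Fintype A]

/-- Time reversal. -/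
def Stat.rev (X : Stat A) : Stat A where
  P n w := X.P n (w ∘ Fin.rev)
  nonneg n w := X.nonneg n _
  total n := by
    rw [← X.total n]
    exact Fintype.sum_equiv (Equiv.arrowCongr Fin.revPerm (Equiv.refl A)) _ _ (fun w => rfl)
  cons n w := by
    rw [← X.snoc n]
    refine Finset.sum_congr rfl fun b _ => ?_
    congr 1
    exact Fin.cons_comp_rev b w
  snoc n w := by
    rw [← X.cons n]
    refine Finset.sum_congr rfl fun b _ => ?_
    congr 1
    exact Fin.snoc_comp_rev b w

/-- Block entropy. -/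
noncomputable def Stat.H (X : Stat A) (n : ℕ) : ℝ := ∑ w, Real.negMulLog (X.P n w)

lemma Stat.rev_H (X : Stat A) (n : ℕ) : X.rev.H n = X.H n :=
  Fintype.sum_equiv (Equiv.arrowCongr Fin.revPerm (Equiv.refl A)) _ _ (fun _ => rfl)

/-- Conditional probability of the letter `a` in front of `w`. -/
noncomputable def Stat.t (X : Stat A) (a : A) {n : ℕ} (w : Fin n → A) : ℝ :=
  X.P (n + 1) (cns a w) / X.P n w

lemma Stat.cns_le (X : Stat A) (a : A) {n : ℕ} (w : Fin n → A) : X.P (n + 1) (cns a w) ≤ X.P n w := by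
  rw [← X.cons n w]
  exact Finset.single_le_sum (f := fun b => X.P (n + 1) (cns b w)) (fun b _ => X.nonneg _ _)
    (Finset.mem_univ a)

lemma Stat.mul_t (X : Stat A) (a : A) {n : ℕ} (w : Fin n → A) :
    X.P n w * X.t a w = X.P (n + 1) (cns a w) := by
  unfold Stat.t
  rcases (X.nonneg n w).eq_or_lt with h | h
  · have h1 := X.cns_le a w
    have h2 := X.nonneg _ (cns a w)
    rw [← h] at h1 ⊢
    linarith
  · field_simp

lemma Stat.t_nonneg (X : Stat A) (a : A) {n : ℕ} (w : Fin n → A) : 0 ≤ X.t a w :=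
  div_nonneg (X.nonneg _ _) (X.nonneg _ _)

lemma Stat.t_le_one (X : Stat A) (a : A) {n : ℕ} (w : Fin n → A) : X.t a w ≤ 1 :=
  div_le_one_of_le₀ (X.cns_le a w) (X.nonneg _ _)

/-- Mean conditional variance of the indicator of the letter `a` given the next `n` letters. -/
noncomputable def Stat.V (X : Stat A) (a : A) (n : ℕ) : ℝ :=
  ∑ w : Fin n → A, X.P n w * (X.t a w * (1 - X.t a w))

lemma Stat.V_succ_le (X : Stat A) (a : A) (n : ℕ) : X.V a (n + 1) ≤ X.V a n := by
  unfold Stat.V
  rw [sum_snc]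
  refine Finset.sum_le_sum fun u _ => ?_
  calc ∑ b, X.P (n + 1) (snc u b) * (X.t a (snc u b) * (1 - X.t a (snc u b)))
      ≤ ∑ b, (X.P (n + 2) (snc (cns a u) b) * (1 - 2 * X.t a u) +
          X.P (n + 1) (snc u b) * X.t a u ^ 2) := by
        refine Finset.sum_le_sum fun b _ => ?_
        rw [← cns_snc, ← X.mul_t]
        have := mul_nonneg (X.nonneg _ (snc u b)) (sq_nonneg (X.t a (snc u b) - X.t a u))
        nlinarith
    _ = X.P n u * (X.t a u * (1 - X.t a u)) := by
        rw [Finset.sum_add_distrib, ← Finset.sum_mul, ← Finset.sum_mul, X.snoc, X.snoc, ← X.mul_t]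
        ring

lemma Stat.V_anti (X : Stat A) (a : A) : Antitone (X.V a) :=
  antitone_nat_of_succ_le (X.V_succ_le a)

lemma Stat.V_le_one (X : Stat A) (a : A) (n : ℕ) : X.V a n ≤ 1 := by
  rw [← X.total n]
  refine Finset.sum_le_sum fun w _ => ?_
  have h1 := X.t_nonneg a w
  have h2 := X.t_le_one a w
  exact mul_le_of_le_one_right (X.nonneg _ _) (by nlinarith)

lemma negMulLog_le (l t : ℝ) (hl : 0 < l) (h0 : 0 ≤ t) (h1 : t ≤ 1) :
    Real.negMulLog t ≤ l + (-Real.log l) * (t * (1 - t)) := by
  have ha : Real.negMulLog t ≤ 1 - t := Real.negMulLog_le_one_sub_self h0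
  have hb : Real.negMulLog t ≤ l - t - t * Real.log l := by
    rcases h0.eq_or_lt with h | h
    · subst h; simp; exact hl.le
    · have h2 := Real.log_le_sub_one_of_pos (div_pos hl h)
      rw [Real.log_div hl.ne' h.ne'] at h2
      have h3 := mul_le_mul_of_nonneg_left h2 h0
      have h4 : t * (l / t - 1) = l - t := by field_simp
      unfold Real.negMulLog
      nlinarith
  have h5 := mul_le_mul_of_nonneg_left ha h0
  have h6 := mul_le_mul_of_nonneg_left hb (sub_nonneg.mpr h1)
  nlinarith [mul_nonneg hl.le h0]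

lemma Stat.H_succ_le (X : Stat A) (l : ℝ) (hl : 0 < l) (n : ℕ) :
    X.H (n + 1) ≤ X.H n + (Fintype.card A * l + (-Real.log l) * ∑ a, X.V a n) := by
  unfold Stat.H Stat.V
  rw [sum_cns, Finset.sum_comm (s := (univ : Finset A))]
  have e : (Fintype.card A : ℝ) * l = ∑ w : Fin n → A, X.P n w * (Fintype.card A * l) := by
    rw [← Finset.sum_mul, X.total, one_mul]
  rw [e, Finset.mul_sum, ← Finset.sum_add_distrib, ← Finset.sum_add_distrib]
  refine Finset.sum_le_sum fun u _ => ?_
  have h1 : ∑ b, X.t b u * Real.negMulLog (X.P n u) = Real.negMulLog (X.P n u) := by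
    rcases (X.nonneg n u).eq_or_lt with h | h
    · rw [← h]; simp
    · rw [← Finset.sum_mul]
      have : ∑ b, X.t b u = 1 := by
        unfold Stat.t
        rw [← Finset.sum_div, X.cons, div_self h.ne']
      rw [this, one_mul]
  calc ∑ b, Real.negMulLog (X.P (n + 1) (cns b u))
      = ∑ b, (X.t b u * Real.negMulLog (X.P n u) + X.P n u * Real.negMulLog (X.t b u)) := by
        refine Finset.sum_congr rfl fun b _ => ?_
        rw [← X.mul_t, Real.negMulLog_mul]
    _ ≤ ∑ b, (X.t b u * Real.negMulLog (X.P n u) +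
          X.P n u * (l + (-Real.log l) * (X.t b u * (1 - X.t b u)))) := by
        refine Finset.sum_le_sum fun b _ => ?_
        have := mul_le_mul_of_nonneg_left (negMulLog_le l _ hl (X.t_nonneg b u) (X.t_le_one b u))
          (X.nonneg n u)
        linarith
    _ = _ := by
        rw [Finset.sum_add_distrib, h1]
        congr 1
        simp_rw [mul_add]
        rw [Finset.sum_add_distrib, Finset.sum_const, Finset.card_univ, nsmul_eq_mul, Finset.mul_sum]
        congr 1
        · ring
        · exact Finset.sum_congr rfl fun b _ => by ring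

lemma Stat.H_zero (X : Stat A) : X.H 0 = 0 := by
  have h := X.total 0
  unfold Stat.H
  rw [Fintype.sum_unique] at h ⊢
  rw [h]; simp

/-- Positive entropy gives a letter whose conditional variance stays bounded below. -/
lemma Stat.exists_letter (X : Stat A) (c : ℝ) (hc : 0 < c) (hH : ∀ n : ℕ, c * n ≤ X.H n) :
    ∃ a : A, ∃ δ : ℝ, 0 < δ ∧ ∀ n, δ ≤ X.V a n := by
  by_contra hcon
  push Not at hcon
  set m : ℝ := (Fintype.card A : ℝ) with hm
  have hm0 : 0 ≤ m := Nat.cast_nonneg _
  -- choose parameters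
  set l : ℝ := min (1 / 2) (c / (4 * (m + 1))) with hl
  have hl0 : 0 < l := lt_min (by norm_num) (by positivity)
  have hl1 : l ≤ 1 / 2 := min_le_left _ _
  have hl2 : m * l ≤ c / 4 := by
    have h1 : l ≤ c / (4 * (m + 1)) := min_le_right _ _
    have h2 : l * (4 * (m + 1)) ≤ c := by rwa [le_div_iff₀ (by positivity)] at h1
    nlinarith
  set C : ℝ := -Real.log l with hC
  have hC0 : 0 < C := by
    have := Real.log_neg hl0 (by linarith)
    linarith
  set δ : ℝ := c / (4 * C * (m + 1)) with hδ
  have hδ0 : 0 < δ := by positivity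
  choose k hk using fun a => hcon a δ hδ0
  obtain ⟨K, hK⟩ : ∃ K : ℕ, ∀ a, k a ≤ K := ⟨univ.sup k, fun a => Finset.le_sup (mem_univ a)⟩
  have hsmall : ∀ n, K ≤ n → m * l + C * ∑ a, X.V a n ≤ c / 2 := by
    intro n hn
    have h1 : ∑ a, X.V a n ≤ m * δ := by
      calc ∑ a, X.V a n ≤ ∑ _a : A, δ :=
            Finset.sum_le_sum fun a _ => (X.V_anti a ((hK a).trans hn)).trans (hk a).le
        _ = m * δ := by rw [Finset.sum_const, Finset.card_univ, nsmul_eq_mul]
    have h2 : C * (m * δ) ≤ c / 4 := by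
      have h3 : δ * (4 * C * (m + 1)) = c := by rw [hδ]; field_simp
      nlinarith [mul_pos hδ0 hC0]
    have := mul_le_mul_of_nonneg_left h1 hC0.le
    linarith
  have hgrow : ∀ j : ℕ, X.H (K + j) ≤ X.H K + c / 2 * j := by
    intro j
    induction j with
    | zero => simp
    | succ j ih =>
      have h1 := X.H_succ_le l hl0 (K + j)
      have h2 := hsmall (K + j) (Nat.le_add_right _ _)
      rw [← add_assoc]
      push_cast
      linarith
  obtain ⟨j, hj⟩ := exists_nat_gt (X.H K / (c / 2))
  rw [div_lt_iff₀ (by positivity)] at hj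
  have h1 := hH (K + j)
  have h2 := hgrow j
  push_cast at h1
  have h3 : 0 ≤ c * K := by positivity
  nlinarith

open Classical in
/-- The indicator of a letter. -/
noncomputable def ind (a b : A) : ℝ := if b = a then 1 else 0

omit [Fintype A] in
lemma abs_ind_le (a b : A) : |ind a b| ≤ 1 := by
  unfold ind; split_ifs <;> simp

lemma sum_ind (a : A) (g : A → ℝ) : ∑ b, g b * ind a b = g a := by
  classical
  unfold ind
  simp

/-- The backward martingale differences. -/
lemma Stat.system (X : Stat A) (a : A) (δ : ℝ) (hδ : ∀ n, δ ≤ X.V a n) (N : ℕ) :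
    ∃ φ : Fin N → (Fin N → A) → ℝ, (∀ i w, |φ i w| ≤ 1) ∧
      (∀ t : Fin N → ℝ, ∑ w, X.P N w * ∏ i, (1 + t i * φ i w) = 1) ∧
      (∀ i k, i < k → ∑ w, X.P N w * ind a (w k) * φ i w = 0) ∧
      (∀ k, δ ≤ ∑ w, X.P N w * ind a (w k) * φ k w) := by
  induction N with
  | zero =>
    refine ⟨fun i => i.elim0, fun i => i.elim0, fun t => ?_, fun i => i.elim0, fun i => i.elim0⟩
    simpa using X.total 0
  | succ N ih =>
    obtain ⟨φ, h1, h2, h3, h4⟩ := ih
    have hA : ∀ G : (Fin N → A) → ℝ,
        ∑ w : Fin (N + 1) → A, X.P (N + 1) w * G (Fin.tail w) = ∑ u, X.P N u * G u := by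
      intro G
      rw [sum_cns]
      refine Finset.sum_congr rfl fun u _ => ?_
      simp only [tail_cns]
      rw [← Finset.sum_mul, X.cons]
    have hB : ∀ G : (Fin N → A) → ℝ,
        ∑ w : Fin (N + 1) → A, X.P (N + 1) w * (ind a (w 0) - X.t a (Fin.tail w)) * G (Fin.tail w)
          = 0 := by
      intro G
      rw [sum_cns]
      refine Finset.sum_eq_zero fun u _ => ?_
      simp only [tail_cns, cns_zero]
      rw [← Finset.sum_mul]
      simp_rw [mul_sub]
      rw [Finset.sum_sub_distrib, ← Finset.sum_mul, X.cons, X.mul_t,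
        sum_ind a (fun b => X.P (N + 1) (cns b u))]
      simp
    refine ⟨Fin.cons (fun w => ind a (w 0) - X.t a (Fin.tail w)) (fun i w => φ i (Fin.tail w)),
      ?_, ?_, ?_, ?_⟩
    · intro i w
      cases i using Fin.cases with
      | zero =>
        simp only [Fin.cons_zero]
        have ha := X.t_nonneg a (Fin.tail w)
        have hb := X.t_le_one a (Fin.tail w)
        unfold ind
        rw [abs_le]
        split_ifs <;> constructor <;> linarith
      | succ i => simpa using h1 i _
    · intro t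
      simp only [Fin.prod_univ_succ, Fin.cons_zero, Fin.cons_succ]
      have e1 := hA (fun u => ∏ i, (1 + t i.succ * φ i u))
      have e2 := hB (fun u => ∏ i, (1 + t i.succ * φ i u))
      rw [h2] at e1
      calc _ = ∑ w : Fin (N + 1) → A, (X.P (N + 1) w * ∏ i, (1 + t i.succ * φ i (Fin.tail w)) +
            t 0 * (X.P (N + 1) w * (ind a (w 0) - X.t a (Fin.tail w)) *
              ∏ i, (1 + t i.succ * φ i (Fin.tail w)))) :=
            Finset.sum_congr rfl fun w _ => by ring
        _ = 1 := by rw [Finset.sum_add_distrib, ← Finset.mul_sum, e1, e2]; simp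
    · intro i k hik
      cases k using Fin.cases with
      | zero => exact absurd hik (Fin.not_lt_zero _)
      | succ k =>
        cases i using Fin.cases with
        | zero =>
          simp only [Fin.cons_zero]
          rw [← hB (fun u => ind a (u k))]
          exact Finset.sum_congr rfl fun w _ => by simp only [Fin.tail]; ring
        | succ i =>
          simp only [Fin.cons_succ]
          rw [← h3 i k (Fin.succ_lt_succ_iff.mp hik)]
          simp_rw [mul_assoc]
          exact hA (fun u => ind a (u k) * φ i u)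
    · intro k
      cases k using Fin.cases with
      | zero =>
        simp only [Fin.cons_zero]
        refine (hδ N).trans (le_of_eq ?_)
        rw [sum_cns]
        refine Finset.sum_congr rfl fun u _ => ?_
        simp only [tail_cns, cns_zero]
        have : ∀ b, X.P (N + 1) (cns b u) * ind a b * (ind a b - X.t a u) =
            X.P (N + 1) (cns b u) * (1 - X.t a u) * ind a b := by
          intro b; unfold ind; split_ifs <;> simp
        simp_rw [this]
        rw [sum_ind a (fun b => X.P (N + 1) (cns b u) * (1 - X.t a u)), ← X.mul_t]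
        ring
      | succ k =>
        simp only [Fin.cons_succ]
        refine (h4 k).trans (le_of_eq ?_)
        simp_rw [mul_assoc]
        exact (hA (fun u => ind a (u k) * φ k u)).symm

/-- The forward martingale differences. -/
lemma Stat.system' (X : Stat A) (a : A) (δ : ℝ) (hδ : ∀ n, δ ≤ X.rev.V a n) (N : ℕ) :
    ∃ φ : Fin N → (Fin N → A) → ℝ, (∀ i w, |φ i w| ≤ 1) ∧
      (∀ t : Fin N → ℝ, ∑ w, X.P N w * ∏ i, (1 + t i * φ i w) = 1) ∧
      (∀ i k, k < i → ∑ w, X.P N w * ind a (w k) * φ i w = 0) ∧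
      (∀ k, δ ≤ ∑ w, X.P N w * ind a (w k) * φ k w) := by
  obtain ⟨φ, h1, h2, h3, h4⟩ := X.rev.system a δ hδ N
  have hs : ∀ F : (Fin N → A) → ℝ, ∑ w, F w = ∑ w, F (w ∘ Fin.rev) := fun F =>
    (Fintype.sum_equiv (Equiv.arrowCongr Fin.revPerm (Equiv.refl A)) _ _ (fun _ => rfl)).symm
  have hrr : ∀ w : Fin N → A, (w ∘ Fin.rev) ∘ Fin.rev = w := fun w => by
    funext i; simp
  refine ⟨fun i w => φ i.rev (w ∘ Fin.rev), fun i w => h1 _ _, fun t => ?_, fun i k hik => ?_,
    fun k => ?_⟩
  · rw [hs]
    refine Eq.trans ?_ (h2 (t ∘ Fin.rev))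
    refine Finset.sum_congr rfl fun w _ => ?_
    simp only [hrr]
    congr 1
    exact Fintype.prod_equiv Fin.revPerm _ _ (fun i => by simp)
  · rw [hs]
    refine Eq.trans ?_ (h3 i.rev k.rev (Fin.rev_lt_rev.mpr hik))
    refine Finset.sum_congr rfl fun w _ => ?_
    simp only [hrr]
    rfl
  · rw [hs]
    refine (h4 k.rev).trans (le_of_eq ?_)
    refine Finset.sum_congr rfl fun w _ => ?_
    simp only [hrr]
    rfl

end Pool.Agent.H598Z.Join
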