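import Pool.Agent.H598Z.Join.Riesz
import Pool.Agent.H598Z.Join.Entropy

set_option autoImplicit false

namespace Pool.Agent.H598Z.Join

open Finset

/-- Couplings of the finite dimensional distributions with a uniform positive correlation. -/
lemma finite_coupling {A B : Type} [Fintype A] [Fintype B] (X : Stat A) (Y : Stat B)
    (c : ℝ) (hc : 0 < c) (hX : ∀ n : ℕ, c * n ≤ X.H n)
    (d : ℝ) (hd : 0 < d) (hY : ∀ n : ℕ, d * n ≤ Y.H n) :
    ∃ a : A, ∃ b : B, ∃ δ : ℝ, 0 < δ ∧ ∀ N : ℕ, ∃ D : (Fin N → A) → (Fin N → B) → ℝ,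
      (∀ w v, 0 ≤ D w v) ∧ (∀ w, ∑ v, Y.P N v * D w v = 1) ∧ (∀ v, ∑ w, X.P N w * D w v = 1) ∧
      ∀ k : Fin N, (∑ w, X.P N w * ind a (w k)) * (∑ v, Y.P N v * ind b (v k)) + δ ≤
        ∑ w, ∑ v, X.P N w * Y.P N v * D w v * (ind a (w k) * ind b (v k)) := by
  obtain ⟨a, α, hα, hXa⟩ := X.rev.exists_letter c hc (fun n => by rw [Stat.rev_H]; exact hX n)
  obtain ⟨b, β, hβ, hYb⟩ := Y.exists_letter d hd hY
  have hα1 : α ≤ 1 := (hXa 0).trans (X.rev.V_le_one a 0)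
  have hβ1 : β ≤ 1 := (hYb 0).trans (Y.V_le_one b 0)
  have hab : 0 < α * β := mul_pos hα hβ
  have hab1 : α * β ≤ 1 := mul_le_one₀ hα1 hβ.le hβ1
  set ε : ℝ := α * β / 2 with hε
  have hε0 : 0 < ε := by positivity
  have hε1 : ε ≤ 1 := by linarith
  refine ⟨a, b, ε ^ 2, by positivity, fun N => ?_⟩
  obtain ⟨φ, h1, h2, h3, h4⟩ := X.system' a α hXa N
  obtain ⟨ψ, g1, g2, g3, g4⟩ := Y.system b β hYb N
  refine ⟨fun w v => ∏ i, (1 + ε * φ i w * ψ i v), fun w v => ?_, fun w => ?_, fun v => ?_,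
    fun k => ?_⟩
  · exact riesz_nonneg _ _ ε hε0.le hε1 (fun i => h1 i w) (fun i => g1 i v)
  · exact g2 (fun i => ε * φ i w)
  · refine Eq.trans ?_ (h2 (fun i => ε * ψ i v))
    refine Finset.sum_congr rfl fun w _ => ?_
    congr 1
    exact Finset.prod_congr rfl fun i _ => by ring
  · have key := riesz_lower (X.P N) (X.nonneg N) (X.total N) (Y.P N) (Y.nonneg N) (Y.total N)
      φ h1 h2 ψ g1 g2 ε hε0.le hε1 (fun w => ind a (w k)) (fun w => abs_ind_le _ _)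
      (fun v => ind b (v k)) (fun v => abs_ind_le _ _)
    refine le_trans ?_ key
    rw [Finset.sum_eq_single k]
    · have h5 := mul_le_mul (h4 k) (g4 k) hβ.le (hα.le.trans (h4 k))
      have h6 := mul_le_mul_of_nonneg_left h5 hε0.le
      have h7 : ε * (α * β) = 2 * ε ^ 2 := by rw [hε]; ring
      linarith
    · intro i _ hik
      rcases lt_or_gt_of_ne hik with h | h
      · rw [g3 i k h, mul_zero]
      · rw [h3 i k h, zero_mul]
    · simp

end Pool.Agent.H598Z.Join
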