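import Mathlib

set_option autoImplicit false

namespace Pool.Agent.H598Z.Join

open MeasureTheory Filter Topology Set
open scoped ENNReal BoundedContinuousFunction

/-- Averaging couplings along the product map and passing to a weak limit gives a joining. -/
lemma average_limit {X Y : Type} [TopologicalSpace X] [PolishSpace X] [MeasurableSpace X]
    [BorelSpace X] [TopologicalSpace Y] [PolishSpace Y] [MeasurableSpace Y] [BorelSpace Y]
    (μ : Measure X) (ν : Measure Y) [IsProbabilityMeasure μ] [IsProbabilityMeasure ν]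
    (S : X → X) (R : Y → Y) (hSc : Continuous S) (hRc : Continuous R)
    (hS : MeasurePreserving S μ μ) (hR : MeasurePreserving R ν ν)
    (E : Set (X × Y)) (hE : IsClosed E) (r : ℝ≥0∞)
    (h : ∀ N : ℕ, ∃ π : Measure (X × Y), IsProbabilityMeasure π ∧ π.map Prod.fst = μ ∧
      π.map Prod.snd = ν ∧ ∀ k < N, r ≤ π ((Prod.map S R)^[k] ⁻¹' E)) :
    ∃ ξ : Measure (X × Y), IsProbabilityMeasure ξ ∧ MeasurePreserving (Prod.map S R) ξ ξ ∧
      ξ.map Prod.fst = μ ∧ ξ.map Prod.snd = ν ∧ r ≤ ξ E := by
  choose π hπ hπ1 hπ2 hπE using h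
  set T : X × Y → X × Y := Prod.map S R with hT
  have hTc : Continuous T := hSc.prodMap hRc
  have hTm : ∀ k, Measurable (T^[k]) := fun k => (hTc.iterate k).measurable
  let m : ℕ → Measure (X × Y) := fun N =>
    ((N + 1 : ℕ) : ℝ≥0∞)⁻¹ • ∑ k ∈ Finset.range (N + 1), (π (N + 1)).map (T^[k])
  have hm : ∀ N s, MeasurableSet s → m N s =
      ((N + 1 : ℕ) : ℝ≥0∞)⁻¹ * ∑ k ∈ Finset.range (N + 1), π (N + 1) (T^[k] ⁻¹' s) := by
    intro N s hs
    simp only [m, Measure.smul_apply, smul_eq_mul, Measure.coe_finsetSum, Finset.sum_apply]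
    congr 1
    exact Finset.sum_congr rfl fun k _ => Measure.map_apply (hTm k) hs
  have hconst : ∀ (N : ℕ) (x : ℝ≥0∞),
      ((N + 1 : ℕ) : ℝ≥0∞)⁻¹ * ∑ _k ∈ Finset.range (N + 1), x = x := by
    intro N x
    rw [Finset.sum_const, Finset.card_range, nsmul_eq_mul, ← mul_assoc, ENNReal.inv_mul_cancel,
      one_mul]
    · simp
    · simp
  have hmp : ∀ N, IsProbabilityMeasure (m N) := fun N => ⟨by
    rw [hm N _ MeasurableSet.univ]
    simp only [preimage_univ, measure_univ]
    exact hconst N 1⟩
  have hm1 : ∀ N, (m N).map Prod.fst = μ := by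
    intro N
    ext s hs
    rw [Measure.map_apply measurable_fst hs, hm N _ (measurable_fst hs), ← hconst N (μ s)]
    congr 1
    refine Finset.sum_congr rfl fun k _ => ?_
    have : T^[k] ⁻¹' (Prod.fst ⁻¹' s) = Prod.fst ⁻¹' (S^[k] ⁻¹' s) := by
      rw [hT, Prod.map_iterate]; rfl
    rw [this, ← Measure.map_apply measurable_fst ((hSc.iterate k).measurable hs), hπ1]
    exact (hS.iterate k).measure_preimage hs.nullMeasurableSet
  have hm2 : ∀ N, (m N).map Prod.snd = ν := by
    intro N
    ext s hs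
    rw [Measure.map_apply measurable_snd hs, hm N _ (measurable_snd hs), ← hconst N (ν s)]
    congr 1
    refine Finset.sum_congr rfl fun k _ => ?_
    have : T^[k] ⁻¹' (Prod.snd ⁻¹' s) = Prod.snd ⁻¹' (R^[k] ⁻¹' s) := by
      rw [hT, Prod.map_iterate]; rfl
    rw [this, ← Measure.map_apply measurable_snd ((hRc.iterate k).measurable hs), hπ2]
    exact (hR.iterate k).measure_preimage hs.nullMeasurableSet
  have hmE : ∀ N, r ≤ m N E := by
    intro N
    rw [hm N _ hE.measurableSet, ← hconst N r]
    gcongr with k hk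
    exact hπE (N + 1) k (Finset.mem_range.mp hk)
  have hint : ∀ (N : ℕ) (g : (X × Y) →ᵇ ℝ), ∫ z, g z ∂(m N) =
      ((N + 1 : ℕ) : ℝ)⁻¹ * ∑ k ∈ Finset.range (N + 1), ∫ z, g (T^[k] z) ∂(π (N + 1)) := by
    intro N g
    simp only [m]
    rw [integral_smul_measure, integral_finsetSum_measure]
    · simp only [ENNReal.toReal_inv, ENNReal.toReal_natCast, smul_eq_mul]
      congr 1
      refine Finset.sum_congr rfl fun k _ => ?_
      exact integral_map (hTm k).aemeasurable g.continuous.aestronglyMeasurable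
    · intro k _
      have := hπ (N + 1)
      have : IsProbabilityMeasure ((π (N + 1)).map (T^[k])) :=
        Measure.isProbabilityMeasure_map (hTm k).aemeasurable
      exact g.integrable _
  let M : ℕ → ProbabilityMeasure (X × Y) := fun N => ⟨m N, hmp N⟩
  have htight : IsTightMeasureSet
      {((ρ : ProbabilityMeasure (X × Y)) : Measure (X × Y)) | ρ ∈ range M} := by
    apply IsTightMeasureSet.prodMk
    · refine (isTightMeasureSet_singleton (μ := μ)).subset ?_
      rintro _ ⟨_, ⟨_, ⟨N, rfl⟩, rfl⟩, rfl⟩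
      exact hm1 N
    · refine (isTightMeasureSet_singleton (μ := ν)).subset ?_
      rintro _ ⟨_, ⟨_, ⟨N, rfl⟩, rfl⟩, rfl⟩
      exact hm2 N
  have hcomp := isCompact_closure_of_isTightMeasureSet htight
  let U : Ultrafilter ℕ := hyperfilter ℕ
  have hU : (U : Filter ℕ) ≤ atTop := by
    rw [← Nat.cofinite_eq_atTop]; exact hyperfilter_le_cofinite
  obtain ⟨ξ, -, hξ⟩ := hcomp.ultrafilter_le_nhds (U.map M) (by
    rw [Ultrafilter.coe_map, le_principal_iff, mem_map]
    exact Eventually.of_forall fun N => subset_closure ⟨N, rfl⟩)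
  have hlim : Tendsto M U (𝓝 ξ) := hξ
  have hI := ProbabilityMeasure.tendsto_iff_forall_integral_tendsto.mp hlim
  refine ⟨ξ, inferInstance, ⟨hTc.measurable, ?_⟩, ?_, ?_, ?_⟩
  · apply ext_of_forall_integral_eq_of_IsFiniteMeasure
    intro g
    rw [integral_map hTc.measurable.aemeasurable g.continuous.aestronglyMeasurable]
    have h1 := hI (g.compContinuous ⟨T, hTc⟩)
    have h2 := hI g
    have h3 : Tendsto (fun N => ∫ z, (g.compContinuous ⟨T, hTc⟩) z ∂(M N : Measure (X × Y)) -
        ∫ z, g z ∂(M N : Measure (X × Y))) U (𝓝 0) := by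
      refine Tendsto.mono_left ?_ hU
      have hb : ∀ N : ℕ, ‖∫ z, (g.compContinuous ⟨T, hTc⟩) z ∂(M N : Measure (X × Y)) -
          ∫ z, g z ∂(M N : Measure (X × Y))‖ ≤ (2 * ‖g‖) * (1 / ((N : ℝ) + 1)) := by
        intro N
        have := hπ (N + 1)
        change ‖∫ z, (g.compContinuous ⟨T, hTc⟩) z ∂(m N) - ∫ z, g z ∂(m N)‖ ≤ _
        rw [hint, hint, ← mul_sub, ← Finset.sum_sub_distrib]
        have e : ∑ k ∈ Finset.range (N + 1),
            (∫ z, (g.compContinuous ⟨T, hTc⟩) (T^[k] z) ∂(π (N + 1)) -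
              ∫ z, g (T^[k] z) ∂(π (N + 1))) =
            ∫ z, g (T^[N + 1] z) ∂(π (N + 1)) - ∫ z, g (T^[0] z) ∂(π (N + 1)) := by
          rw [← Finset.sum_range_sub (fun k => ∫ z, g (T^[k] z) ∂(π (N + 1)))]
          refine Finset.sum_congr rfl fun k _ => ?_
          simp [Function.iterate_succ_apply']
        rw [e, norm_mul]
        have hb1 : ∀ k, ‖∫ z, g (T^[k] z) ∂(π (N + 1))‖ ≤ ‖g‖ := by
          intro k
          have := norm_integral_le_of_norm_le_const (μ := π (N + 1))
            (f := fun z => g (T^[k] z)) (C := ‖g‖)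
            (Eventually.of_forall fun z => g.norm_coe_le_norm _)
          simpa using this
        have hb2 := (norm_sub_le _ _).trans (add_le_add (hb1 (N + 1)) (hb1 0))
        rw [norm_inv, Real.norm_natCast, mul_comm]
        push_cast
        rw [one_div]
        gcongr
        linarith
      refine squeeze_zero_norm hb ?_
      simpa using (tendsto_one_div_add_atTop_nhds_zero_nat (𝕜 := ℝ)).const_mul (2 * ‖g‖)
    have h4 := tendsto_nhds_unique (h1.sub h2) h3
    have h5 : ∫ z, g (T z) ∂(ξ : Measure (X × Y)) =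
        ∫ z, (g.compContinuous ⟨T, hTc⟩) z ∂(ξ : Measure (X × Y)) := rfl
    rw [h5]
    linarith
  · apply ext_of_forall_integral_eq_of_IsFiniteMeasure
    intro g
    rw [integral_map measurable_fst.aemeasurable g.continuous.aestronglyMeasurable]
    have h1 := hI (g.compContinuous ⟨Prod.fst, continuous_fst⟩)
    have h2 : ∀ N, ∫ z, (g.compContinuous ⟨Prod.fst, continuous_fst⟩) z
        ∂(M N : Measure (X × Y)) = ∫ x, g x ∂μ := by
      intro N
      rw [← hm1 N, integral_map measurable_fst.aemeasurable g.continuous.aestronglyMeasurable]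
      rfl
    simp only [h2] at h1
    exact tendsto_nhds_unique h1 tendsto_const_nhds
  · apply ext_of_forall_integral_eq_of_IsFiniteMeasure
    intro g
    rw [integral_map measurable_snd.aemeasurable g.continuous.aestronglyMeasurable]
    have h1 := hI (g.compContinuous ⟨Prod.snd, continuous_snd⟩)
    have h2 : ∀ N, ∫ z, (g.compContinuous ⟨Prod.snd, continuous_snd⟩) z
        ∂(M N : Measure (X × Y)) = ∫ x, g x ∂ν := by
      intro N
      rw [← hm2 N, integral_map measurable_snd.aemeasurable g.continuous.aestronglyMeasurable]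
      rfl
    simp only [h2] at h1
    exact tendsto_nhds_unique h1 tendsto_const_nhds
  · refine le_trans ?_ (ProbabilityMeasure.limsup_measure_closed_le_of_tendsto hlim hE)
    exact le_limsup_of_frequently_le' (Eventually.of_forall hmE).frequently

end Pool.Agent.H598Z.Join
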