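import Pool.Agent.H598Z.Join.Finite
import Pool.Agent.H598Z.Join.Limit

set_option autoImplicit false

namespace Pool.Agent.H598Z.Join

open MeasureTheory Set
open scoped ENNReal

/-- The left shift. -/
def shift (x : ℕ → ℕ) (n : ℕ) : ℕ := x (n + 1)

lemma shift_iterate (k : ℕ) (x : ℕ → ℕ) (n : ℕ) : shift^[k] x n = x (n + k) := by
  induction k generalizing x with
  | zero => rfl
  | succ k ih => rw [Function.iterate_succ_apply, ih]; rfl

lemma continuous_shift : Continuous shift :=
  continuous_pi fun n => continuous_apply (n + 1)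

/-- Cylinder sets of the coded process. -/
def cyl {m : ℕ} (f : ℕ → Fin m) {n : ℕ} (w : Fin n → Fin m) : Set (ℕ → ℕ) :=
  {x : ℕ → ℕ | ∀ i : Fin n, f (x i.val) = w i}

lemma meas_coord {m : ℕ} (f : ℕ → Fin m) (k : ℕ) : Measurable (fun x : ℕ → ℕ => f (x k)) :=
  (measurable_from_top (f := f)).comp (measurable_pi_apply k)

lemma meas_word {m : ℕ} (f : ℕ → Fin m) (n : ℕ) :
    Measurable (fun (x : ℕ → ℕ) (i : Fin n) => f (x i.val)) :=
  measurable_pi_lambda _ fun i => meas_coord f i

lemma cyl_eq {m : ℕ} (f : ℕ → Fin m) {n : ℕ} (w : Fin n → Fin m) :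
    cyl f w = (fun (x : ℕ → ℕ) (i : Fin n) => f (x i.val)) ⁻¹' {w} := by
  ext x
  simp [cyl, funext_iff]

lemma meas_cyl {m : ℕ} (f : ℕ → Fin m) {n : ℕ} (w : Fin n → Fin m) : MeasurableSet (cyl f w) := by
  rw [cyl_eq]; exact meas_word f n (measurableSet_singleton w)

lemma sum_fiber {Ω B : Type} [MeasurableSpace Ω] [Fintype B] [MeasurableSpace B]
    [MeasurableSingletonClass B] (μ : Measure Ω) (g : Ω → B) (hg : Measurable g) (s : Set Ω)
    (hs : MeasurableSet s) : ∑ b, μ (s ∩ g ⁻¹' {b}) = μ s := by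
  have h := sum_measure_preimage_singleton (μ := μ.restrict s) Finset.univ (f := g)
    (fun b _ => hg (measurableSet_singleton b))
  simp only [Finset.coe_univ, preimage_univ, Measure.restrict_apply_univ] at h
  rw [← h]
  refine Finset.sum_congr rfl fun b _ => ?_
  rw [Measure.restrict_apply (hg (measurableSet_singleton b)), inter_comm]

lemma sum_fiber_real {Ω B : Type} [MeasurableSpace Ω] [Fintype B] [MeasurableSpace B]
    [MeasurableSingletonClass B] (μ : Measure Ω) [IsFiniteMeasure μ] (g : Ω → B) (hg : Measurable g)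
    (s : Set Ω) (hs : MeasurableSet s) : ∑ b, (μ (s ∩ g ⁻¹' {b})).toReal = (μ s).toReal := by
  rw [← sum_fiber μ g hg s hs, ENNReal.toReal_sum fun b _ => measure_ne_top _ _]

lemma sum_cyl {m : ℕ} (f : ℕ → Fin m) (n : ℕ) (μ : Measure (ℕ → ℕ)) (s : Set (ℕ → ℕ))
    (hs : MeasurableSet s) : ∑ w : Fin n → Fin m, μ (s ∩ cyl f w) = μ s := by
  simp only [cyl_eq]
  exact sum_fiber μ _ (meas_word f n) s hs

/-- The finite dimensional distributions of the coded process. -/
noncomputable def toStat {m : ℕ} (f : ℕ → Fin m) (μ : Measure (ℕ → ℕ)) [IsProbabilityMeasure μ]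
    (hμ : MeasurePreserving shift μ μ) : Stat (Fin m) where
  P _ w := (μ (cyl f w)).toReal
  nonneg _ _ := ENNReal.toReal_nonneg
  total n := by
    have h := sum_cyl f n μ univ MeasurableSet.univ
    simp only [univ_inter] at h
    rw [← ENNReal.toReal_sum fun b _ => measure_ne_top _ _, h]
    simp
  cons n w := by
    rw [← hμ.measure_preimage (meas_cyl f w).nullMeasurableSet,
      ← sum_fiber_real μ _ (meas_coord f 0) _ (hμ.measurable (meas_cyl f w))]
    refine Finset.sum_congr rfl fun b _ => ?_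
    congr 2
    ext x
    simp only [cyl, mem_setOf_eq, Fin.forall_fin_succ, mem_inter_iff, mem_preimage,
      mem_singleton_iff, cns_zero, cns_succ, shift]
    exact and_comm
  snoc n w := by
    rw [← sum_fiber_real μ _ (meas_coord f n) _ (meas_cyl f w)]
    refine Finset.sum_congr rfl fun b _ => ?_
    congr 2
    ext x
    simp only [cyl, mem_setOf_eq, Fin.forall_fin_succ', mem_inter_iff, mem_preimage,
      mem_singleton_iff, snc, Fin.snoc_castSucc, Fin.snoc_last, Fin.val_castSucc, Fin.val_last]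

lemma measure_coord_inter {m : ℕ} (f : ℕ → Fin m) (μ : Measure (ℕ → ℕ)) [IsProbabilityMeasure μ]
    {N : ℕ} (w : Fin N → Fin m) (k : Fin N) (a : Fin m) :
    μ ({x | f (x k) = a} ∩ cyl f w) = ENNReal.ofReal ((μ (cyl f w)).toReal * ind a (w k)) := by
  unfold ind
  split_ifs with h
  · rw [mul_one, ENNReal.ofReal_toReal (measure_ne_top _ _)]
    congr 1
    refine inter_eq_right.mpr fun x hx => ?_
    exact (hx k).trans h
  · have : {x : ℕ → ℕ | f (x k) = a} ∩ cyl f w = ∅ := by
      refine eq_empty_of_forall_notMem fun x hx => h ?_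
      exact (hx.2 k).symm.trans hx.1
    simp [this]

lemma ind_nonneg {A : Type} (a b : A) : 0 ≤ ind a b := by
  unfold ind; split_ifs <;> simp

lemma sum_coord {m : ℕ} (f : ℕ → Fin m) (μ : Measure (ℕ → ℕ)) [IsProbabilityMeasure μ]
    (hμ : MeasurePreserving shift μ μ) {N : ℕ} (k : Fin N) (a : Fin m) :
    ∑ w : Fin N → Fin m, (μ (cyl f w)).toReal * ind a (w k) = (μ {x | f (x 0) = a}).toReal := by
  have hm : ∀ j, MeasurableSet {x : ℕ → ℕ | f (x j) = a} := fun j =>
    meas_coord f j (measurableSet_singleton a)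
  have h1 : μ {x | f (x k) = a} = μ {x | f (x 0) = a} := by
    rw [← (hμ.iterate k).measure_preimage (hm 0).nullMeasurableSet]
    congr 1
    ext x
    simp [shift_iterate]
  rw [← h1, ← sum_cyl f N μ _ (hm k), ENNReal.toReal_sum fun b _ => measure_ne_top _ _]
  refine Finset.sum_congr rfl fun w _ => ?_
  rw [measure_coord_inter, ENNReal.toReal_ofReal
    (mul_nonneg ENNReal.toReal_nonneg (ind_nonneg _ _))]

theorem main (μ ν : Measure (ℕ → ℕ)) [IsProbabilityMeasure μ] [IsProbabilityMeasure ν]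
    (hμ : MeasurePreserving shift μ μ) (hν : MeasurePreserving shift ν ν)
    {m : ℕ} (f : ℕ → Fin m) (c : ℝ) (hc : 0 < c)
    (hf : ∀ n : ℕ, c * (n : ℝ) ≤ ∑ w : Fin n → Fin m, Real.negMulLog ((μ (cyl f w)).toReal))
    {l : ℕ} (g : ℕ → Fin l) (d : ℝ) (hd : 0 < d)
    (hg : ∀ n : ℕ, d * (n : ℝ) ≤ ∑ w : Fin n → Fin l, Real.negMulLog ((ν (cyl g w)).toReal)) :
    ∃ ξ : Measure ((ℕ → ℕ) × (ℕ → ℕ)), IsProbabilityMeasure ξ ∧
      MeasurePreserving (Prod.map shift shift) ξ ξ ∧ ξ.map Prod.fst = μ ∧ ξ.map Prod.snd = ν ∧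
      ∃ a b : ℕ, ξ ({p : (ℕ → ℕ) × (ℕ → ℕ) | p.1 0 = a} ∩ {p | p.2 0 = b}) ≠
        μ {x : ℕ → ℕ | x 0 = a} * ν {y : ℕ → ℕ | y 0 = b} := by
  obtain ⟨a, b, δ, hδ, hN⟩ := finite_coupling (toStat f μ hμ) (toStat g ν hν) c hc hf d hd hg
  have hmA : ∀ j, MeasurableSet {x : ℕ → ℕ | f (x j) = a} := fun j =>
    meas_coord f j (measurableSet_singleton a)
  have hmB : ∀ j, MeasurableSet {x : ℕ → ℕ | g (x j) = b} := fun j =>
    meas_coord g j (measurableSet_singleton b)
  have hE : IsClosed ({x : ℕ → ℕ | f (x 0) = a} ×ˢ {x : ℕ → ℕ | g (x 0) = b}) := by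
    refine IsClosed.prod ?_ ?_
    · exact IsClosed.preimage (f := fun x : ℕ → ℕ => x 0) (continuous_apply 0)
        (isClosed_discrete {n : ℕ | f n = a})
    · exact IsClosed.preimage (f := fun x : ℕ → ℕ => x 0) (continuous_apply 0)
        (isClosed_discrete {n : ℕ | g n = b})
  obtain ⟨ξ, hξ, hinv, h1, h2, hr⟩ := average_limit μ ν shift shift continuous_shift
    continuous_shift hμ hν _ hE
    (ENNReal.ofReal ((μ {x | f (x 0) = a}).toReal * (ν {x | g (x 0) = b}).toReal + δ)) (by
      intro N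
      obtain ⟨D, hD0, hD1, hD2, hD3⟩ := hN N
      change ∀ w, ∑ v, (ν (cyl g v)).toReal * D w v = 1 at hD1
      change ∀ v, ∑ w, (μ (cyl f w)).toReal * D w v = 1 at hD2
      change ∀ k : Fin N, (∑ w, (μ (cyl f w)).toReal * ind a (w k)) *
        (∑ v, (ν (cyl g v)).toReal * ind b (v k)) + δ ≤
        ∑ w, ∑ v, (μ (cyl f w)).toReal * (ν (cyl g v)).toReal * D w v *
          (ind a (w k) * ind b (v k)) at hD3
      let π : Measure ((ℕ → ℕ) × (ℕ → ℕ)) := ∑ w : Fin N → Fin m, ∑ v : Fin N → Fin l,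
        ENNReal.ofReal (D w v) • (μ.restrict (cyl f w)).prod (ν.restrict (cyl g v))
      have hπ : ∀ s t, MeasurableSet s → MeasurableSet t → π (s ×ˢ t) =
          ∑ w : Fin N → Fin m, ∑ v : Fin N → Fin l,
            ENNReal.ofReal (D w v) * (μ (s ∩ cyl f w) * ν (t ∩ cyl g v)) := by
        intro s t hs ht
        simp only [π, Measure.coe_finsetSum, Finset.sum_apply, Measure.smul_apply, smul_eq_mul,
          Measure.prod_prod, Measure.restrict_apply hs, Measure.restrict_apply ht]
      have e1 : ∀ w, ∑ v : Fin N → Fin l, ENNReal.ofReal (D w v) * ν (cyl g v) = 1 := by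
        intro w
        rw [← ENNReal.ofReal_one, ← hD1 w, ENNReal.ofReal_sum_of_nonneg
          fun v _ => mul_nonneg ENNReal.toReal_nonneg (hD0 w v)]
        refine Finset.sum_congr rfl fun v _ => ?_
        rw [ENNReal.ofReal_mul ENNReal.toReal_nonneg, ENNReal.ofReal_toReal (measure_ne_top _ _),
          mul_comm]
      have e2 : ∀ v, ∑ w : Fin N → Fin m, ENNReal.ofReal (D w v) * μ (cyl f w) = 1 := by
        intro v
        rw [← ENNReal.ofReal_one, ← hD2 v, ENNReal.ofReal_sum_of_nonneg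
          fun w _ => mul_nonneg ENNReal.toReal_nonneg (hD0 w v)]
        refine Finset.sum_congr rfl fun w _ => ?_
        rw [ENNReal.ofReal_mul ENNReal.toReal_nonneg, ENNReal.ofReal_toReal (measure_ne_top _ _),
          mul_comm]
      have m1 : π.map Prod.fst = μ := by
        ext s hs
        rw [Measure.map_apply measurable_fst hs, ← prod_univ, hπ s univ hs MeasurableSet.univ,
          ← sum_cyl f N μ s hs]
        refine Finset.sum_congr rfl fun w _ => ?_
        simp only [univ_inter]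
        calc _ = μ (s ∩ cyl f w) * ∑ v : Fin N → Fin l, ENNReal.ofReal (D w v) * ν (cyl g v) := by
              rw [Finset.mul_sum]
              exact Finset.sum_congr rfl fun v _ => by ring
          _ = _ := by rw [e1, mul_one]
      have m2 : π.map Prod.snd = ν := by
        ext s hs
        rw [Measure.map_apply measurable_snd hs, ← univ_prod, hπ univ s MeasurableSet.univ hs,
          ← sum_cyl g N ν s hs, Finset.sum_comm]
        refine Finset.sum_congr rfl fun v _ => ?_
        simp only [univ_inter]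
        calc _ = ν (s ∩ cyl g v) * ∑ w : Fin N → Fin m, ENNReal.ofReal (D w v) * μ (cyl f w) := by
              rw [Finset.mul_sum]
              exact Finset.sum_congr rfl fun w _ => by ring
          _ = _ := by rw [e2, mul_one]
      refine ⟨π, ⟨?_⟩, m1, m2, fun k hk => ?_⟩
      · have := congrArg (fun ρ : Measure (ℕ → ℕ) => ρ univ) m1
        simp only [Measure.map_apply measurable_fst MeasurableSet.univ, preimage_univ,
          measure_univ] at this
        exact this
      · have e3 : (Prod.map shift shift)^[k] ⁻¹'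
            ({x : ℕ → ℕ | f (x 0) = a} ×ˢ {x : ℕ → ℕ | g (x 0) = b}) =
            {x : ℕ → ℕ | f (x k) = a} ×ˢ {x : ℕ → ℕ | g (x k) = b} := by
          rw [Prod.map_iterate]
          ext p
          simp [shift_iterate]
        rw [e3, hπ _ _ (hmA k) (hmB k)]
        have h4 := hD3 ⟨k, hk⟩
        rw [sum_coord f μ hμ, sum_coord g ν hν] at h4
        refine (ENNReal.ofReal_le_ofReal h4).trans (le_of_eq ?_)
        have nn : ∀ w v, 0 ≤ (μ (cyl f w)).toReal * (ν (cyl g v)).toReal * D w v *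
            (ind a (w ⟨k, hk⟩) * ind b (v ⟨k, hk⟩)) := fun w v =>
          mul_nonneg (mul_nonneg (mul_nonneg ENNReal.toReal_nonneg ENNReal.toReal_nonneg)
            (hD0 w v)) (mul_nonneg (ind_nonneg _ _) (ind_nonneg _ _))
        rw [ENNReal.ofReal_sum_of_nonneg fun w _ => Finset.sum_nonneg fun v _ => nn w v]
        refine Finset.sum_congr rfl fun w _ => ?_
        rw [ENNReal.ofReal_sum_of_nonneg fun v _ => nn w v]
        refine Finset.sum_congr rfl fun v _ => ?_
        rw [measure_coord_inter f μ w ⟨k, hk⟩ a, measure_coord_inter g ν v ⟨k, hk⟩ b,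
          ← ENNReal.ofReal_mul (mul_nonneg ENNReal.toReal_nonneg (ind_nonneg _ _)),
          ← ENNReal.ofReal_mul (hD0 w v)]
        congr 1
        ring)
  refine ⟨ξ, hξ, hinv, h1, h2, ?_⟩
  by_contra hcon
  push Not at hcon
  have hz : Measurable (fun x : ℕ → ℕ => x 0) := measurable_pi_apply 0
  have hzz : Measurable (fun p : (ℕ → ℕ) × (ℕ → ℕ) => (p.1 0, p.2 0)) :=
    (hz.comp measurable_fst).prodMk (hz.comp measurable_snd)
  have hprod : ξ.map (fun p : (ℕ → ℕ) × (ℕ → ℕ) => (p.1 0, p.2 0)) =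
      (μ.map (fun x => x 0)).prod (ν.map (fun x => x 0)) := by
    apply Measure.ext_of_singleton
    rintro ⟨i, j⟩
    rw [Measure.map_apply hzz (measurableSet_singleton _), ← singleton_prod_singleton,
      Measure.prod_prod, Measure.map_apply hz (measurableSet_singleton _),
      Measure.map_apply hz (measurableSet_singleton _)]
    exact hcon i j
  have h5 := congrArg (fun ρ : Measure (ℕ × ℕ) => ρ ({n | f n = a} ×ˢ {n | g n = b})) hprod
  rw [Measure.map_apply hzz (MeasurableSet.of_discrete), Measure.prod_prod,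
    Measure.map_apply hz MeasurableSet.of_discrete,
    Measure.map_apply hz MeasurableSet.of_discrete] at h5
  have h6 : ξ ({x : ℕ → ℕ | f (x 0) = a} ×ˢ {x : ℕ → ℕ | g (x 0) = b}) =
      μ {x | f (x 0) = a} * ν {x | g (x 0) = b} := h5
  rw [h6, ENNReal.ofReal_le_iff_le_toReal
    (ENNReal.mul_ne_top (measure_ne_top _ _) (measure_ne_top _ _)), ENNReal.toReal_mul] at hr
  linarith

end Pool.Agent.H598Z.Join
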