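import Mathlib

set_option autoImplicit false

namespace Pool.Agent.H598Z.Join

open Finset

/-- Expansion of a Riesz product against a tensor product. -/
lemma riesz_expand {W V ι : Type*} [Fintype W] [Fintype V] [Fintype ι] [DecidableEq ι]
    (p : W → ℝ) (q : V → ℝ) (φ : ι → W → ℝ) (ψ : ι → V → ℝ) (ε : ℝ) (F : W → ℝ) (G : V → ℝ) :
    ∑ w, ∑ v, p w * q v * (∏ i, (1 + ε * φ i w * ψ i v)) * (F w * G v) =
      ∑ S ∈ (univ : Finset ι).powerset,
        ε ^ S.card * (∑ w, p w * F w * ∏ i ∈ S, φ i w) * (∑ v, q v * G v * ∏ i ∈ S, ψ i v) := by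
  have h1 : ∀ w v, p w * q v * (∏ i, (1 + ε * φ i w * ψ i v)) * (F w * G v) =
      ∑ S ∈ (univ : Finset ι).powerset,
        ε ^ S.card * (p w * F w * ∏ i ∈ S, φ i w) * (q v * G v * ∏ i ∈ S, ψ i v) := by
    intro w v
    rw [Finset.prod_one_add, Finset.mul_sum, Finset.sum_mul]
    refine Finset.sum_congr rfl fun S _ => ?_
    rw [Finset.prod_mul_distrib, Finset.prod_mul_distrib, Finset.prod_const]
    ring
  simp_rw [h1]
  rw [Finset.sum_comm]
  simp_rw [Finset.sum_comm (s := (univ : Finset W)) (t := (univ : Finset ι).powerset)]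
  rw [Finset.sum_comm]
  refine Finset.sum_congr rfl fun S _ => ?_
  rw [mul_assoc, Finset.sum_mul_sum, Finset.mul_sum, Finset.sum_comm]
  refine Finset.sum_congr rfl fun w _ => ?_
  rw [Finset.mul_sum]
  refine Finset.sum_congr rfl fun v _ => ?_
  ring

lemma riesz_nonneg {ι : Type*} [Fintype ι] (a b : ι → ℝ) (ε : ℝ) (hε0 : 0 ≤ ε) (hε1 : ε ≤ 1)
    (ha : ∀ i, |a i| ≤ 1) (hb : ∀ i, |b i| ≤ 1) : 0 ≤ ∏ i, (1 + ε * a i * b i) := by
  refine Finset.prod_nonneg fun i _ => ?_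
  have h1 : |ε * a i * b i| ≤ 1 := by
    rw [abs_mul, abs_mul, abs_of_nonneg hε0]
    have := mul_le_one₀ hε1 (abs_nonneg (a i)) (ha i)
    exact mul_le_one₀ this (abs_nonneg _) (hb i)
  linarith [neg_abs_le (ε * a i * b i)]

/-- Bessel inequality for a bounded multiplicative system. -/
lemma bessel {W ι : Type*} [Fintype W] [Fintype ι] [DecidableEq ι]
    (p : W → ℝ) (hp : ∀ w, 0 ≤ p w) (hp1 : ∑ w, p w = 1) (φ : ι → W → ℝ)
    (hφ : ∀ i w, |φ i w| ≤ 1) (hm : ∀ t : ι → ℝ, ∑ w, p w * ∏ i, (1 + t i * φ i w) = 1)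
    (F : W → ℝ) (hF : ∀ w, |F w| ≤ 1) :
    ∑ S ∈ (univ : Finset ι).powerset, (∑ w, p w * F w * ∏ i ∈ S, φ i w) ^ 2 ≤ 1 := by
  have h1 := riesz_expand p p φ φ 1 F F
  simp only [one_pow, one_mul] at h1
  simp_rw [sq]
  rw [← h1]
  calc ∑ w, ∑ v, p w * p v * (∏ i, (1 + φ i w * φ i v)) * (F w * F v)
      ≤ ∑ w, ∑ v, p w * (p v * ∏ i, (1 + φ i w * φ i v)) := by
        refine Finset.sum_le_sum fun w _ => Finset.sum_le_sum fun v _ => ?_
        have h2 : 0 ≤ ∏ i, (1 + φ i w * φ i v) := by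
          have := riesz_nonneg (fun i => φ i w) (fun i => φ i v) 1 zero_le_one le_rfl
            (fun i => hφ i w) (fun i => hφ i v)
          simpa using this
        have h3 : F w * F v ≤ 1 := by
          have : |F w * F v| ≤ 1 := by
            rw [abs_mul]; exact mul_le_one₀ (hF w) (abs_nonneg _) (hF v)
          exact (le_abs_self _).trans this
        have h4 : 0 ≤ p w * p v * ∏ i, (1 + φ i w * φ i v) :=
          mul_nonneg (mul_nonneg (hp w) (hp v)) h2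
        calc _ ≤ p w * p v * (∏ i, (1 + φ i w * φ i v)) * 1 := mul_le_mul_of_nonneg_left h3 h4
          _ = _ := by ring
    _ = 1 := by
        simp_rw [← Finset.mul_sum, hm]
        simpa using hp1

/-- Second order lower bound for the correlation under a Riesz product coupling. -/
lemma riesz_lower {W V ι : Type*} [Fintype W] [Fintype V] [Fintype ι] [DecidableEq ι]
    (p : W → ℝ) (hp : ∀ w, 0 ≤ p w) (hp1 : ∑ w, p w = 1)
    (q : V → ℝ) (hq : ∀ v, 0 ≤ q v) (hq1 : ∑ v, q v = 1)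
    (φ : ι → W → ℝ) (hφ : ∀ i w, |φ i w| ≤ 1)
    (hφm : ∀ t : ι → ℝ, ∑ w, p w * ∏ i, (1 + t i * φ i w) = 1)
    (ψ : ι → V → ℝ) (hψ : ∀ i v, |ψ i v| ≤ 1)
    (hψm : ∀ t : ι → ℝ, ∑ v, q v * ∏ i, (1 + t i * ψ i v) = 1)
    (ε : ℝ) (hε0 : 0 ≤ ε) (hε1 : ε ≤ 1) (F : W → ℝ) (hF : ∀ w, |F w| ≤ 1)
    (G : V → ℝ) (hG : ∀ v, |G v| ≤ 1) :
    (∑ w, p w * F w) * (∑ v, q v * G v) +
        ε * (∑ i, (∑ w, p w * F w * φ i w) * (∑ v, q v * G v * ψ i v)) - ε ^ 2 ≤
      ∑ w, ∑ v, p w * q v * (∏ i, (1 + ε * φ i w * ψ i v)) * (F w * G v) := by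
  rw [riesz_expand]
  set a : Finset ι → ℝ := fun S => ∑ w, p w * F w * ∏ i ∈ S, φ i w with ha
  set b : Finset ι → ℝ := fun S => ∑ v, q v * G v * ∏ i ∈ S, ψ i v with hb
  have hA : ∑ S ∈ (univ : Finset ι).powerset, a S ^ 2 ≤ 1 := bessel p hp hp1 φ hφ hφm F hF
  have hB : ∑ S ∈ (univ : Finset ι).powerset, b S ^ 2 ≤ 1 := bessel q hq hq1 ψ hψ hψm G hG
  have key : ∀ S : Finset ι, (if S = ∅ then a S * b S else 0) +
      (if S.card = 1 then ε * (a S * b S) else 0) - ε ^ 2 * ((a S ^ 2 + b S ^ 2) / 2) ≤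
      ε ^ S.card * a S * b S := by
    intro S
    have h0 : 0 ≤ ε ^ 2 * ((a S ^ 2 + b S ^ 2) / 2) := by positivity
    by_cases h1 : S = ∅
    · subst h1
      simp only [if_true, Finset.card_empty, pow_zero, one_mul]
      norm_num
      linarith
    · by_cases h2 : S.card = 1
      · rw [if_neg h1, if_pos h2, h2]
        nlinarith
      · rw [if_neg h1, if_neg h2]
        have h3 : 2 ≤ S.card := by
          have := Finset.card_pos.mpr (Finset.nonempty_iff_ne_empty.mpr h1)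
          omega
        have h4 : ε ^ S.card ≤ ε ^ 2 := pow_le_pow_of_le_one hε0 hε1 h3
        have h5 : 0 ≤ ε ^ S.card := pow_nonneg hε0 _
        have h6 : -((a S ^ 2 + b S ^ 2) / 2) ≤ a S * b S := by nlinarith [sq_nonneg (a S + b S)]
        have h7 : 0 ≤ (a S ^ 2 + b S ^ 2) / 2 := by positivity
        have h8 := mul_le_mul_of_nonneg_left h6 h5
        have h9 := mul_le_mul_of_nonneg_right h4 h7
        nlinarith
  refine le_trans ?_ (Finset.sum_le_sum fun S _ => key S)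
  rw [Finset.sum_sub_distrib, Finset.sum_add_distrib, ← Finset.mul_sum]
  have e1 : ∑ S ∈ (univ : Finset ι).powerset, (if S = ∅ then a S * b S else 0) =
      (∑ w, p w * F w) * (∑ v, q v * G v) := by
    rw [Finset.sum_ite_eq']
    simp [ha, hb]
  have e2 : ∑ S ∈ (univ : Finset ι).powerset, (if S.card = 1 then ε * (a S * b S) else 0) =
      ε * (∑ i, (∑ w, p w * F w * φ i w) * (∑ v, q v * G v * ψ i v)) := by
    rw [← Finset.sum_filter, ← Finset.powersetCard_eq_filter, Finset.powersetCard_one,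
      Finset.sum_map, Finset.mul_sum]
    refine Finset.sum_congr rfl fun i _ => ?_
    simp [ha, hb]
  rw [e1, e2]
  have e3 : ∑ S ∈ (univ : Finset ι).powerset, (a S ^ 2 + b S ^ 2) / 2 ≤ 1 := by
    rw [← Finset.sum_div, Finset.sum_add_distrib]; linarith
  have := mul_le_mul_of_nonneg_left e3 (sq_nonneg ε)
  linarith

end Pool.Agent.H598Z.Join
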